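import Pool.Agent.R34.DP.Final

/-!
The directed L1-l2 Poincare inequality on the unit cube with an absolute constant.
-/

open MeasureTheory Set
open scoped NNReal

namespace Pool.Agent.Results.MP_04ae38_an.DirectedPoincare

/-- the unit cube `[0,1]^n` -/
def cube (n : ℕ) : Set (Fin n → ℝ) := {x | ∀ i, 0 ≤ x i ∧ x i ≤ 1}

/-- the `i`-th partial derivative of `f` at `x` (defined almost everywhere for Lipschitz `f`) -/
noncomputable def pd {n : ℕ} (f : (Fin n → ℝ) → ℝ) (i : Fin n) (x : Fin n → ℝ) : ℝ :=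
  fderiv ℝ f x (Pi.single i 1)

/-- the Euclidean norm of the directed gradient `(min (∂ᵢ f x) 0)ᵢ` -/
noncomputable def negGradNorm {n : ℕ} (f : (Fin n → ℝ) → ℝ) (x : Fin n → ℝ) : ℝ :=
  Real.sqrt (∑ i, (min (pd f i x) 0) ^ 2)

/-- the `L¹` distance of `f` to the monotone functions on the cube: the infimum of
`∫ |f - g|` over the (measurable) functions `g` that are monotone on the cube -/
noncomputable def d1mono {n : ℕ} (f : (Fin n → ℝ) → ℝ) : ℝ :=
  sInf {r : ℝ | ∃ g : (Fin n → ℝ) → ℝ, MonotoneOn g (cube n) ∧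
    AEStronglyMeasurable g (volume.restrict (cube n)) ∧ r = ∫ x in cube n, |f x - g x|}

lemma cube_eq (n : ℕ) : cube n = Set.Icc (0 : Fin n → ℝ) 1 := by
  ext x
  simp only [cube, Set.mem_setOf_eq, Set.mem_Icc, Pi.le_def, Pi.zero_apply, Pi.one_apply]
  exact ⟨fun h => ⟨fun i => (h i).1, fun i => (h i).2⟩, fun h i => ⟨h.1 i, h.2 i⟩⟩

/-- There is an absolute constant `c` such that for every `n` and every Lipschitz
`f : [0,1]^n → ℝ` some measurable monotone `g` has `∫ |f - g| ≤ c ∫ ‖∇⁻ f‖₂`; hence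
`d1mono f ≤ c ∫ ‖∇⁻ f‖₂`. -/
theorem result : ∃ c : ℝ, 0 < c ∧ ∀ (n : ℕ) (f : (Fin n → ℝ) → ℝ),
    (∃ K : ℝ≥0, LipschitzOnWith K f (cube n)) →
    (∃ g : (Fin n → ℝ) → ℝ, Measurable g ∧ MonotoneOn g (cube n) ∧
      ∫ x in cube n, |f x - g x| ≤ c * ∫ x in cube n, negGradNorm f x) ∧
    d1mono f ≤ c * ∫ x in cube n, negGradNorm f x := by
  obtain ⟨c, hc, h⟩ := R34.DP.t_FINAL
  refine ⟨c, hc, fun n f hf => ?_⟩
  obtain ⟨K, hK⟩ := hf
  rw [cube_eq] at hK
  obtain ⟨g, hgm, hgmono, hg⟩ := h n f K hK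
  have hg2 : ∫ x in cube n, |f x - g x| ≤ c * ∫ x in cube n, negGradNorm f x := by
    rw [cube_eq]; exact hg
  have hgmono2 : MonotoneOn g (cube n) := by rw [cube_eq]; exact hgmono
  refine ⟨⟨g, hgm, hgmono2, hg2⟩, ?_⟩
  refine le_trans (csInf_le ⟨0, ?_⟩ ⟨g, hgmono2, hgm.aestronglyMeasurable, rfl⟩) hg2
  rintro r ⟨g', _, _, rfl⟩
  exact integral_nonneg (fun x => abs_nonneg _)

end Pool.Agent.Results.MP_04ae38_an.DirectedPoincare
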